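import Pool.Agent.Q231.P8.NP

/-!
# 4-COLORING is NP-complete on graphs without induced `P_8` and `C_7`

`FourCol s t (V, E)` says that `(V, E)` is a finite simple graph (vertices listed once, edges joining
two different vertices, no edge listed twice) without induced path on `s` vertices and without
induced cycle on `t` vertices, and that it is `4`-colourable.

The reduction is from 3SAT.  The graph consists of three parts `W`, `U`, `C`; every vertex of `W` is
adjacent to every vertex of `U`, both parts contain an edge, so `W` uses two colours and `U` the two
other colours.  Every occurrence of a literal in a clause is represented by an edge of `C`, whose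
ends have one neighbour each in `W`; these two vertices of `W` belong to the literal, and both ends
of the edge can have colours of `W` only if they have different colours (the literal is true).
A clause has four more vertices in `U`, joined to the three edges of the clause in such a way that
not all three edges can have an end with a colour of `U`.  `C` induces a graph of maximum degree
one, which keeps induced paths short, and all odd cycles needed have length `3` or `5`.
-/

set_option autoImplicit false

namespace Pool.Agent.Results.MP_c3ee0c_lc.P8C7NPComplete

open Pool.Agent.NPC Pool.Agent.Q231.P8

/-- **4-COLORING on `(P_8, C_7)`-free graphs is NP-complete.**  It is in `NP`; it is `NP`-hard; the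
reduction produces only `(P_8, C_7)`-free graphs (third part); in particular the problem is solvable
in polynomial time if and only if `P = NP` (last part). -/
theorem result :
    InNPP (FourCol 8 7) ∧ NPHardP (FourCol 8 7) ∧
    (∀ L : Set (List Bool), InNP L → ∃ f : List Bool → List ℕ × List (ℕ × ℕ),
      PolyTime (fun x => bits (f x)) ∧ (∀ x, PCFree 8 7 (f x)) ∧
      ∀ x, x ∈ L ↔ (toG (f x).1 (f x).2).Colorable 4) ∧
    (InPP (FourCol 8 7) ↔ ∀ L : Set (List Bool), InNP L → InP L) := by
  refine ⟨inNP 8 7, hardI.toNPHardP, fun L hL => ?_,
    ⟨fun h => NPHard.collapse hardI.toNPHardP h, fun h => h _ (inNP 8 7)⟩⟩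
  obtain ⟨f, hf, hpr, hfL⟩ := hardPr L hL
  exact ⟨f, PC.toPolyTime hf, hpr, hfL⟩

end Pool.Agent.Results.MP_c3ee0c_lc.P8C7NPComplete
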